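import Mathlib

set_option autoImplicit false

namespace Pool.Agent.Results.MP_3e5dca_al.BaseLeDegree

open Equiv Equiv.Perm

/-- `B` is a base for the action of `G` on `X`: only the identity fixes every point of `B`. -/
def IsBase (G X : Type*) [Group G] [MulAction G X] (B : Finset X) : Prop :=
  ∀ g : G, (∀ x ∈ B, g • x = x) → g = 1

/-- The base size: the smallest cardinality of a base. -/
noncomputable def baseSize (G X : Type*) [Group G] [MulAction G X] : ℕ :=
  sInf {k | ∃ B : Finset X, B.card = k ∧ IsBase G X B}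

/-- A chain of point stabilizers gives a base of logarithmic size. -/
theorem chain {G X : Type*} [Group G] [Finite G] [MulAction G X] [FaithfulSMul G X]
    (K : Subgroup G) :
    ∃ B : Finset X, 2 ^ B.card ≤ Nat.card K ∧ ∀ g ∈ K, (∀ x ∈ B, g • x = x) → g = 1 := by
  classical
  induction hn : Nat.card K using Nat.strong_induction_on generalizing K with
  | _ n ih =>
    by_cases h1 : ∀ g ∈ K, g = 1
    · refine ⟨∅, ?_, fun g hg _ => h1 g hg⟩
      rw [Finset.card_empty, pow_zero, ← hn]
      exact Nat.card_pos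
    · push Not at h1
      obtain ⟨g, hg, hg1⟩ := h1
      obtain ⟨x, hx⟩ : ∃ x : X, g • x ≠ x := by
        by_contra hc
        push Not at hc
        exact hg1 (FaithfulSMul.eq_of_smul_eq_smul (α := X) fun x => by rw [hc x, one_smul])
      have hle : K ⊓ MulAction.stabilizer G x ≤ K := inf_le_left
      have hne : K ⊓ MulAction.stabilizer G x ≠ K := by
        intro h
        have : g ∈ K ⊓ MulAction.stabilizer G x := by rw [h]; exact hg
        exact hx this.2
      obtain ⟨m, hm⟩ := Subgroup.card_dvd_of_le hle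
      have hpos : 0 < Nat.card K := Nat.card_pos
      have hm2 : 2 ≤ m := by
        rcases m with _ | _ | m
        · simp at hm; omega
        · exfalso
          apply hne
          apply Subgroup.eq_of_le_of_card_ge hle
          rw [hm]; simp
        · omega
      have h2 : Nat.card (K ⊓ MulAction.stabilizer G x : Subgroup G) * 2 ≤ n := by
        rw [← hn, hm]
        exact Nat.mul_le_mul_left _ hm2
      have hpos' : 0 < Nat.card (K ⊓ MulAction.stabilizer G x : Subgroup G) := Nat.card_pos
      obtain ⟨B, hB, hB'⟩ := ih _ (by omega) (K ⊓ MulAction.stabilizer G x) rfl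
      refine ⟨insert x B, ?_, ?_⟩
      · calc 2 ^ (insert x B).card ≤ 2 ^ (B.card + 1) :=
              Nat.pow_le_pow_right (by norm_num) (Finset.card_insert_le _ _)
          _ = 2 ^ B.card * 2 := pow_succ _ _
          _ ≤ Nat.card (K ⊓ MulAction.stabilizer G x : Subgroup G) * 2 :=
              Nat.mul_le_mul_right _ hB
          _ ≤ n := h2
      · intro g hg hgB
        exact hB' g ⟨hg, hgB x (Finset.mem_insert_self _ _)⟩
          fun y hy => hgB y (Finset.mem_insert_of_mem hy)

section
variable {α : Type*} [DecidableEq α]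

/-- The three-cycle `a ↦ b ↦ c ↦ a`. -/
def cyc (a b c : α) : Perm α := swap a b * swap b c

theorem cyc_a {a b c : α} (hab : a ≠ b) (hac : a ≠ c) : cyc a b c a = b := by
  simp only [cyc, Perm.mul_apply]
  rw [swap_apply_of_ne_of_ne hab hac, swap_apply_left]

theorem cyc_b {a b c : α} (hac : a ≠ c) (hbc : b ≠ c) : cyc a b c b = c := by
  simp only [cyc, Perm.mul_apply]
  rw [swap_apply_left, swap_apply_of_ne_of_ne hac.symm hbc.symm]

theorem cyc_c {a b c : α} : cyc a b c c = a := by
  simp only [cyc, Perm.mul_apply]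
  rw [swap_apply_right, swap_apply_right]

theorem cyc_d {a b c d : α} (ha : d ≠ a) (hb : d ≠ b) (hc : d ≠ c) : cyc a b c d = d := by
  simp only [cyc, Perm.mul_apply]
  rw [swap_apply_of_ne_of_ne hb hc, swap_apply_of_ne_of_ne ha hb]

theorem eq_cyc {a b c : α} (hab : a ≠ b) (hac : a ≠ c) (hbc : b ≠ c) (g : Perm α)
    (h1 : g a = b) (h2 : g b = c) (h3 : g c = a) (h4 : ∀ d, d ≠ a → d ≠ b → d ≠ c → g d = d) :
    g = cyc a b c := by
  ext x
  by_cases ha : x = a
  · subst ha; rw [h1, cyc_a hab hac]
  by_cases hb : x = b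
  · subst hb; rw [h2, cyc_b hac hbc]
  by_cases hc : x = c
  · subst hc; rw [h3, cyc_c]
  rw [h4 x ha hb hc, cyc_d ha hb hc]

theorem cyc_rot {a b c : α} (hab : a ≠ b) (hac : a ≠ c) (hbc : b ≠ c) :
    cyc b c a = cyc a b c :=
  eq_cyc hab hac hbc _ cyc_c (cyc_a hbc hab.symm) (cyc_b hab.symm hac.symm)
    fun _ h1 h2 h3 => cyc_d h2 h3 h1

theorem cyc_inv {a b c : α} (hab : a ≠ b) (hac : a ≠ c) (hbc : b ≠ c) :
    (cyc a b c)⁻¹ = cyc b a c := by
  apply eq_cyc hab.symm hbc hac
  · rw [Perm.inv_eq_iff_eq, cyc_a hab hac]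
  · rw [Perm.inv_eq_iff_eq, cyc_c]
  · rw [Perm.inv_eq_iff_eq, cyc_b hac hbc]
  · intro d h1 h2 h3
    rw [Perm.inv_eq_iff_eq, cyc_d h2 h1 h3]

theorem cyc_conj (g : Perm α) (a b c : α) :
    g * cyc a b c * g⁻¹ = cyc (g a) (g b) (g c) := by
  simp only [cyc, swap_apply_apply]
  group

variable {H : Subgroup (Perm α)}

/-- `H` contains the three-cycle on the distinct points `a`, `b`, `c`. -/
def T (H : Subgroup (Perm α)) (a b c : α) : Prop := a ≠ b ∧ a ≠ c ∧ b ≠ c ∧ cyc a b c ∈ H

theorem T.rot {a b c : α} (h : T H a b c) : T H b c a :=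
  ⟨h.2.2.1, h.1.symm, h.2.1.symm, by rw [cyc_rot h.1 h.2.1 h.2.2.1]; exact h.2.2.2⟩

theorem T.inv {a b c : α} (h : T H a b c) : T H b a c :=
  ⟨h.1.symm, h.2.2.1, h.2.1, by rw [← cyc_inv h.1 h.2.1 h.2.2.1]; exact H.inv_mem h.2.2.2⟩

theorem T.conj {a b c : α} (h : T H a b c) {g : Perm α} (hg : g ∈ H) :
    T H (g a) (g b) (g c) :=
  ⟨g.injective.ne h.1, g.injective.ne h.2.1, g.injective.ne h.2.2.1, by
    rw [← cyc_conj]
    exact H.mul_mem (H.mul_mem hg h.2.2.2) (H.inv_mem hg)⟩

/-- Two three-cycles sharing the points `a`, `b`. -/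
theorem T.merge {a b c d : α} (h1 : T H a b c) (h2 : T H a b d) (hcd : c ≠ d) : T H d a c := by
  have h3 := h1.conj (H.inv_mem h2.2.2.2)
  have e1 : (cyc a b d)⁻¹ a = d := by rw [Perm.inv_eq_iff_eq, cyc_c]
  have e2 : (cyc a b d)⁻¹ b = a := by rw [Perm.inv_eq_iff_eq, cyc_a h2.1 h2.2.1]
  have e3 : (cyc a b d)⁻¹ c = c := by
    rw [Perm.inv_eq_iff_eq, cyc_d h1.2.1.symm h1.2.2.1.symm hcd]
  rwa [e1, e2, e3] at h3

/-- Two three-cycles sharing the point `y`. -/
theorem T.key {x y z w v : α} (h1 : T H x y z) (h2 : T H y w v) (hxw : x ≠ w) : T H x y w := by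
  by_cases hzw : z = w
  · subst hzw; exact h1
  by_cases hvx : v = x
  · subst hvx; exact h2.rot.rot
  by_cases hzv : z = v
  · subst hzv
    have a1 : T H y z x := h1.rot
    have a2 : T H y z w := h2.rot.rot.inv
    exact (a1.merge a2 hxw).inv.rot.rot
  · have a1 : T H y x z := h1.inv
    have b1 := a1.conj h2.2.2.2
    rw [cyc_a h2.1 h2.2.1, cyc_d h1.1 hxw (Ne.symm hvx),
      cyc_d h1.2.2.1.symm hzw hzv] at b1
    have a2 : T H x z y := a1.rot
    have a3 : T H x z w := b1.rot
    exact (a2.merge a3 h2.1).rot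

theorem alt_le {β : Type*} [Fintype β] [DecidableEq β] {H : Subgroup (Perm β)}
    (h : ∀ a b c : β, a ≠ b → a ≠ c → b ≠ c → T H a b c) : alternatingGroup β ≤ H := by
  rw [← closure_three_cycles_eq_alternating, Subgroup.closure_le]
  intro g hg
  have hg' : g.IsThreeCycle := hg
  obtain ⟨a, ha⟩ : g.support.Nonempty := by
    rw [← Finset.card_pos, hg'.card_support]; norm_num
  have e := hg'.eq_swap_mul_swap_iff_mem_support.2 ha
  have nd := hg'.nodup_iff_mem_support.2 ha
  simp only [List.nodup_cons, List.mem_cons, List.not_mem_nil, or_false, not_or,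
    not_false_eq_true, List.nodup_nil, and_true] at nd
  rw [SetLike.mem_coe, e]
  exact (h a (g a) (g (g a)) nd.1.1 nd.1.2 nd.2).2.2.2

/-- The key computation: if `h` and its conjugate by a transposition lie in `H` then so does a
product of two transpositions. -/
theorem swap_mem {h : Perm α} {a b : α} (hh : h ∈ H) (hc : swap a b * h * swap a b ∈ H) :
    swap a b * swap (h a) (h b) ∈ H := by
  have : swap a b * swap (h a) (h b) = (swap a b * h * swap a b) * h⁻¹ := by
    rw [swap_apply_apply]; group
  rw [this]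
  exact H.mul_mem hc (H.inv_mem hh)

/-- If two different transpositions sharing a point have their product in `H`, then `H` contains
a three-cycle. -/
theorem T_of_share {a b c : α} (hab : a ≠ b) (hac : a ≠ c) (hbc : b ≠ c)
    (h : swap a b * swap b c ∈ H) : T H a b c := ⟨hab, hac, hbc, h⟩

end

section
variable {α : Type*} [Fintype α] [DecidableEq α] {X : Type*} [MulAction (Perm α) X]

omit [Fintype α] [DecidableEq α] in
theorem mem_conj {ω : X} {s g : Perm α} (hs : s⁻¹ = s) (h : g • s • ω = s • ω) :
    s * g * s ∈ MulAction.stabilizer (Perm α) ω := by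
  have h2 : s * s = 1 := by
    nth_rw 1 [← hs]
    exact inv_mul_cancel s
  rw [MulAction.mem_stabilizer_iff, mul_smul, mul_smul, h, smul_smul, h2, one_smul]

/-- The case of a point stabilizer containing a three-cycle. -/
theorem case_two (ω : X) (hA : ¬ alternatingGroup α ≤ MulAction.stabilizer (Perm α) ω)
    (a b c : α) (hT : T (MulAction.stabilizer (Perm α) ω) a b c) :
    ∃ B : Finset X, B.card ≤ Fintype.card α ∧ IsBase (Perm α) X B := by
  classical
  set H := MulAction.stabilizer (Perm α) ω with hH
  set Δ : Finset α := Finset.univ.filter fun x => x = a ∨ ∃ z, T H a x z with hΔ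
  have memΔ : ∀ x, x ∈ Δ ↔ (x = a ∨ ∃ z, T H a x z) := fun x => by simp [hΔ]
  have haΔ : a ∈ Δ := (memΔ a).2 (Or.inl rfl)
  have hP : ∀ x y z, x ∈ Δ → T H x y z → y ∈ Δ := by
    intro x y z hx h
    rcases (memΔ x).1 hx with rfl | ⟨z', hz'⟩
    · exact (memΔ y).2 (Or.inr ⟨z, h⟩)
    · by_cases hay : a = y
      · rw [← hay]; exact haΔ
      · have := hz'.key h hay
        exact (memΔ y).2 (Or.inr ⟨x, this.inv.rot⟩)
  have hQ : ∀ x ∈ Δ, ∃ p q, T H x p q := by
    intro x hx
    rcases (memΔ x).1 hx with rfl | ⟨z', hz'⟩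
    · exact ⟨b, c, hT⟩
    · exact ⟨z', a, hz'.rot⟩
  have hbΔ : b ∈ Δ := hP a b c haΔ hT
  obtain ⟨y, hy⟩ : ∃ y, y ∉ Δ := by
    by_contra hall
    push Not at hall
    apply hA
    have h2 : ∀ x y, x ≠ y → ∃ z, T H x y z := by
      intro x y hxy
      rcases (memΔ x).1 (hall x) with rfl | ⟨z, hz⟩
      · rcases (memΔ y).1 (hall y) with rfl | ⟨z', hz'⟩
        · exact absurd rfl hxy
        · exact ⟨z', hz'⟩
      · rcases (memΔ y).1 (hall y) with rfl | ⟨z', hz'⟩
        · exact ⟨z, hz.inv⟩
        · exact ⟨a, (hz.inv.key hz' hxy).rot.rot.inv⟩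
    apply alt_le
    intro x y w hxy hxw hyw
    obtain ⟨z, hz⟩ := h2 x y hxy
    obtain ⟨z', hz'⟩ := h2 y w hyw
    exact hz.key hz' hxw
  have hedge : ∀ x ∈ Δ, ∀ y ∉ Δ, ∀ h ∈ H, swap x y * swap (h x) (h y) ∈ H →
      (h x = x ∧ h y = y) ∨ (h x = y ∧ h y = x) := by
    intro x hx y hy h hh hs
    have hxy : x ≠ y := fun e => hy (e ▸ hx)
    have huv : h x ≠ h y := h.injective.ne hxy
    have hno : ∀ z, ¬ T H x y z := fun z hz => hy (hP x y z hx hz)
    generalize h x = u at hs huv ⊢
    generalize h y = v at hs huv ⊢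
    by_cases h1 : u = x
    · subst h1
      by_cases h2 : v = y
      · exact Or.inl ⟨rfl, h2⟩
      · exfalso
        rw [swap_comm u y] at hs
        exact hno v (T_of_share hxy.symm (Ne.symm h2) huv hs).inv
    by_cases h2 : v = y
    · subst h2
      exfalso
      rw [swap_comm u v] at hs
      exact hno u (T_of_share hxy (Ne.symm h1) huv.symm hs)
    by_cases h3 : u = y
    · subst h3
      by_cases h4 : v = x
      · exact Or.inr ⟨rfl, h4⟩
      · exfalso
        exact hno v (T_of_share hxy (Ne.symm h4) huv hs)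
    by_cases h4 : v = x
    · subst h4
      exfalso
      rw [swap_comm v y, swap_comm u v] at hs
      exact hno u (T_of_share hxy.symm (Ne.symm h3) huv.symm hs).inv
    exfalso
    obtain ⟨p, q, hpq⟩ := hQ x hx
    have hpΔ : p ∈ Δ := hP x p q hx hpq
    have hqΔ : q ∈ Δ := hP x q p hx hpq.inv.rot
    have hpy : p ≠ y := fun e => hy (e ▸ hpΔ)
    have hqy : q ≠ y := fun e => hy (e ▸ hqΔ)
    have hc := hpq.conj hs
    have e1 : (swap x y * swap u v) x = y := by
      rw [Perm.mul_apply, swap_apply_of_ne_of_ne (Ne.symm h1) (Ne.symm h4), swap_apply_left]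
    rw [e1] at hc
    have hfix : ∀ r, r ≠ x → r ≠ y → r ≠ u → r ≠ v → (swap x y * swap u v) r = r := by
      intro r r1 r2 r3 r4
      rw [Perm.mul_apply, swap_apply_of_ne_of_ne r3 r4, swap_apply_of_ne_of_ne r1 r2]
    have hor : (swap x y * swap u v) p ∈ Δ ∨ (swap x y * swap u v) q ∈ Δ := by
      by_cases hp : p = u ∨ p = v
      · by_cases hq : q = u ∨ q = v
        · left
          rcases hp with rfl | rfl
          · rcases hq with rfl | rfl
            · exact absurd rfl hpq.2.2.1
            · rw [Perm.mul_apply, swap_apply_left,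
                swap_apply_of_ne_of_ne hpq.2.1.symm hqy]
              exact hqΔ
          · rcases hq with rfl | rfl
            · rw [Perm.mul_apply, swap_apply_right,
                swap_apply_of_ne_of_ne hpq.2.1.symm hqy]
              exact hqΔ
            · exact absurd rfl hpq.2.2.1
        · right
          push Not at hq
          rw [hfix q hpq.2.1.symm hqy hq.1 hq.2]; exact hqΔ
      · left
        push Not at hp
        rw [hfix p hpq.1.symm hpy hp.1 hp.2]; exact hpΔ
    rcases hor with h5 | h5
    · exact hy (hP _ y _ h5 hc.inv)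
    · exact hy (hP _ y _ h5 hc.rot.rot)
  refine ⟨insert ω ((Δᶜ).image (fun y' => swap a y' • ω) ∪
    (Δ.erase a).image (fun x' => swap x' y • ω)), ?_, ?_⟩
  · have h1 := Finset.card_insert_le ω ((Δᶜ).image (fun y' => swap a y' • ω) ∪
      (Δ.erase a).image (fun x' => swap x' y • ω))
    have h2 := Finset.card_union_le ((Δᶜ).image (fun y' => swap a y' • ω))
      ((Δ.erase a).image (fun x' => swap x' y • ω))
    have h3 : ((Δᶜ).image (fun y' => swap a y' • ω)).card ≤ (Δᶜ).card := Finset.card_image_le
    have h4 : ((Δ.erase a).image (fun x' => swap x' y • ω)).card ≤ (Δ.erase a).card :=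
      Finset.card_image_le
    rw [Finset.card_compl] at h3
    rw [Finset.card_erase_of_mem haΔ] at h4
    have h5 : 0 < Δ.card := Finset.card_pos.2 ⟨a, haΔ⟩
    have h6 : Δ.card ≤ Fintype.card α := Finset.card_le_univ Δ
    omega
  · intro g hg
    have hgH : g ∈ H := hg ω (Finset.mem_insert_self _ _)
    have hE1 : ∀ y' ∉ Δ, (g a = a ∧ g y' = y') ∨ (g a = y' ∧ g y' = a) := by
      intro y' hy'
      apply hedge a haΔ y' hy' g hgH
      apply swap_mem hgH
      apply mem_conj (swap_inv _ _)
      apply hg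
      apply Finset.mem_insert_of_mem
      apply Finset.mem_union_left
      exact Finset.mem_image_of_mem _ (Finset.mem_compl.2 hy')
    have hE2 : ∀ x' ∈ Δ, (g x' = x' ∧ g y = y) ∨ (g x' = y ∧ g y = x') := by
      intro x' hx'
      by_cases hxa : x' = a
      · subst hxa; exact hE1 y hy
      apply hedge x' hx' y hy g hgH
      apply swap_mem hgH
      apply mem_conj (swap_inv _ _)
      apply hg
      apply Finset.mem_insert_of_mem
      apply Finset.mem_union_right
      exact Finset.mem_image_of_mem _ (Finset.mem_erase.2 ⟨hxa, hx'⟩)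
    have hgy : g y = y := by
      rcases hE2 a haΔ with h | h
      · exact h.2
      · rcases hE2 b hbΔ with h' | h'
        · exact h'.2
        · exact absurd (h.2.symm.trans h'.2) hT.1
    have hgx : ∀ x ∈ Δ, g x = x := by
      intro x hx
      rcases hE2 x hx with h | h
      · exact h.1
      · exfalso
        apply hy
        rw [← hgy, h.2]; exact hx
    ext x
    rw [Perm.one_apply]
    by_cases hx : x ∈ Δ
    · exact hgx x hx
    · rcases hE1 x hx with h | h
      · exact h.2
      · exfalso
        apply hx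
        rw [← h.1, hgx a haΔ]; exact haΔ

/-- The case of a point stabilizer containing no three-cycle. -/
theorem case_one [FaithfulSMul (Perm α) X] (h5 : 5 ≤ Fintype.card α) (ω : X)
    (hT : ∀ a b c : α, ¬ T (MulAction.stabilizer (Perm α) ω) a b c) :
    ∃ B : Finset X, B.card ≤ Fintype.card α ∧ IsBase (Perm α) X B := by
  classical
  set H := MulAction.stabilizer (Perm α) ω with hH
  set N : α → Finset α := fun a => Finset.univ.filter fun b => b = a ∨ swap a b ∈ H with hN
  have hN2 : ∀ a, (N a).card ≤ 2 := by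
    intro a
    by_contra hc
    push Not at hc
    have key : ∀ p q : α, p ≠ a → q ≠ a → p ≠ q → p ∈ N a → q ∈ N a → False := by
      intro p q hp hq hpq hpN hqN
      simp only [hN, Finset.mem_filter, Finset.mem_univ, true_and, hp, hq, false_or] at hpN hqN
      have : swap p a * swap a q ∈ H := by
        rw [swap_comm p a]; exact H.mul_mem hpN hqN
      exact hT p a q (T_of_share hp hpq (Ne.symm hq) this)
    obtain ⟨p, hp, q, hq, r, hr, hpq, hpr, hqr⟩ := Finset.two_lt_card.1 hc
    by_cases e1 : p = a
    · exact key q r (fun e => hpq (e1.trans e.symm)) (fun e => hpr (e1.trans e.symm)) hqr hq hr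
    · by_cases e2 : q = a
      · exact key p r e1 (fun e => hqr (e2.trans e.symm)) hpr hp hr
      · exact key p q e1 e2 hpq hp hq
  obtain ⟨r1⟩ : Nonempty α := Fintype.card_pos_iff.1 (by omega)
  obtain ⟨r2, hr2⟩ : ∃ r2, r2 ∉ N r1 := by
    by_contra hc
    push Not at hc
    have := Finset.card_le_card (fun x _ => hc x : (Finset.univ : Finset α) ⊆ N r1)
    have := hN2 r1
    rw [Finset.card_univ] at *
    omega
  obtain ⟨r3, hr3⟩ : ∃ r3, r3 ∉ N r1 ∪ N r2 := by
    by_contra hc
    push Not at hc
    have h1 := Finset.card_le_card (fun x _ => hc x : (Finset.univ : Finset α) ⊆ N r1 ∪ N r2)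
    have h2 := hN2 r1
    have h3 := hN2 r2
    have h4 := Finset.card_union_le (N r1) (N r2)
    rw [Finset.card_univ] at h1
    omega
  rw [Finset.notMem_union] at hr3
  simp only [hN, Finset.mem_filter, Finset.mem_univ, true_and, not_or] at hr2 hr3
  obtain ⟨hr21, hs12⟩ := hr2
  obtain ⟨⟨hr31, hs13⟩, hr32, hs23⟩ := hr3
  obtain ⟨c, hc⟩ : ∃ c, c ∉ ({r1, r2, r3} : Finset α) := by
    by_contra hc
    push Not at hc
    have h1 := Finset.card_le_card (fun x _ => hc x : (Finset.univ : Finset α) ⊆ {r1, r2, r3})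
    have h2 := Finset.card_le_three (a := r1) (b := r2) (c := r3)
    rw [Finset.card_univ] at h1
    omega
  simp only [Finset.mem_insert, Finset.mem_singleton, not_or] at hc
  obtain ⟨hc1, hc2, hc3⟩ := hc
  set L : Finset α := Finset.univ \ {c, r1, r2, r3} with hL
  have memL : ∀ x, x ∈ L ↔ x ≠ c ∧ x ≠ r1 ∧ x ≠ r2 ∧ x ≠ r3 := by
    intro x; simp [hL]
  have cardL : L.card = Fintype.card α - 4 := by
    rw [hL, Finset.card_sdiff_of_subset (Finset.subset_univ _), Finset.card_univ]
    congr 1
    rw [Finset.card_insert_of_notMem, Finset.card_insert_of_notMem, Finset.card_insert_of_notMem,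
      Finset.card_singleton]
    · simpa using Ne.symm hr32
    · simp only [Finset.mem_insert, Finset.mem_singleton, not_or]
      exact ⟨Ne.symm hr21, Ne.symm hr31⟩
    · simp only [Finset.mem_insert, Finset.mem_singleton, not_or]
      exact ⟨hc1, hc2, hc3⟩
  set B0 : Finset X := insert ω (L.image fun l => swap c l • ω) with hB0
  have cardB0 : B0.card ≤ Fintype.card α - 4 + 1 := by
    have h1 : B0.card ≤ (L.image fun l => swap c l • ω).card + 1 := Finset.card_insert_le _ _
    have h2 : (L.image fun l => swap c l • ω).card ≤ L.card := Finset.card_image_le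
    omega
  set K : Subgroup (Perm α) := fixingSubgroup (Perm α) (B0 : Set X) with hK
  have memK : ∀ g, g ∈ K ↔ ∀ x ∈ B0, g • x = x := by
    intro g
    rw [hK, mem_fixingSubgroup_iff]
    simp only [Finset.mem_coe]
  have hKH : ∀ g ∈ K, g ∈ H := fun g hg => (memK g).1 hg ω (Finset.mem_insert_self _ _)
  have hKs : ∀ g ∈ K, ∀ l ∈ L, swap c l * swap (g c) (g l) ∈ H := by
    intro g hg l hl
    apply swap_mem (hKH g hg)
    apply mem_conj (swap_inv _ _)
    apply (memK g).1 hg
    apply Finset.mem_insert_of_mem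
    exact Finset.mem_image_of_mem _ hl
  have hKfix : ∀ g ∈ K, g c = c → g = 1 := by
    intro g hg hgc
    have hgl : ∀ l ∈ L, g l = l := by
      intro l hl
      by_contra hne
      have h1 := hKs g hg l hl
      rw [hgc, swap_comm c l] at h1
      have hlc : l ≠ c := ((memL l).1 hl).1
      have hglc : g l ≠ c := fun e => hlc (g.injective (e.trans hgc.symm))
      exact hT l c (g l) (T_of_share hlc (Ne.symm hne) (Ne.symm hglc) h1)
    have hR : ∀ r, r = r1 ∨ r = r2 ∨ r = r3 → g r = r1 ∨ g r = r2 ∨ g r = r3 := by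
      intro r hr
      by_contra hcon
      push Not at hcon
      have hrL : r ∉ L := by
        rw [memL]; rcases hr with h | h | h <;> simp [h]
      have hrc : r ≠ c := by
        rcases hr with h | h | h
        · rw [h]; exact Ne.symm hc1
        · rw [h]; exact Ne.symm hc2
        · rw [h]; exact Ne.symm hc3
      by_cases hgrc : g r = c
      · exact hrc (g.injective (hgrc.trans hgc.symm))
      · have : g r ∈ L := (memL _).2 ⟨hgrc, hcon⟩
        have h2 := hgl _ this
        exact hrL (g.injective h2 ▸ this)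
    have hout : ∀ d, d ≠ r1 → d ≠ r2 → d ≠ r3 → g d = d := by
      intro d h1 h2 h3
      by_cases hdc : d = c
      · rw [hdc, hgc]
      · exact hgl d ((memL d).2 ⟨hdc, h1, h2, h3⟩)
    have hswap : ∀ p q : α, p ≠ q → (∀ d, d ≠ p → d ≠ q → g d = d) → g p = q → g q = p →
        swap p q = g := by
      intro p q hpq h1 h2 h3
      ext x
      by_cases e1 : x = p
      · rw [e1, swap_apply_left, h2]
      by_cases e2 : x = q
      · rw [e2, swap_apply_right, h3]
      rw [swap_apply_of_ne_of_ne e1 e2, h1 x e1 e2]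
    have hgH := hKH g hg
    have inj : ∀ {x y z : α}, g x = z → g y = z → x = y :=
      fun h1 h2 => g.injective (h1.trans h2.symm)
    rcases hR r1 (Or.inl rfl) with a1 | a1 | a1
    · rcases hR r2 (Or.inr (Or.inl rfl)) with a2 | a2 | a2
      · exact absurd (inj a2 a1) hr21
      · rcases hR r3 (Or.inr (Or.inr rfl)) with a3 | a3 | a3
        · exact absurd (inj a3 a1) hr31
        · exact absurd (inj a3 a2) hr32
        · ext x
          rw [Perm.one_apply]
          by_cases e1 : x = r1
          · rw [e1, a1]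
          by_cases e2 : x = r2
          · rw [e2, a2]
          by_cases e3 : x = r3
          · rw [e3, a3]
          exact hout x e1 e2 e3
      · rcases hR r3 (Or.inr (Or.inr rfl)) with a3 | a3 | a3
        · exact absurd (inj a3 a1) hr31
        · exfalso
          apply hs23
          rw [hswap r2 r3 (Ne.symm hr32) ?_ a2 a3]
          · exact hgH
          · intro d h1 h2
            by_cases e1 : d = r1
            · rw [e1, a1]
            · exact hout d e1 h1 h2
        · exact absurd (inj a3 a2) hr32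
    · rcases hR r2 (Or.inr (Or.inl rfl)) with a2 | a2 | a2
      · exfalso
        apply hs12
        rcases hR r3 (Or.inr (Or.inr rfl)) with a3 | a3 | a3
        · exact absurd (inj a3 a2) hr32
        · exact absurd (inj a3 a1) hr31
        · rw [hswap r1 r2 (Ne.symm hr21) ?_ a1 a2]
          · exact hgH
          · intro d h1 h2
            by_cases e1 : d = r3
            · rw [e1, a3]
            · exact hout d h1 h2 e1
      · exact absurd (inj a2 a1) hr21
      · rcases hR r3 (Or.inr (Or.inr rfl)) with a3 | a3 | a3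
        · exfalso
          have := eq_cyc (Ne.symm hr21) (Ne.symm hr31) (Ne.symm hr32) g a1 a2 a3 hout
          exact hT r1 r2 r3 ⟨Ne.symm hr21, Ne.symm hr31, Ne.symm hr32, this ▸ hgH⟩
        · exact absurd (inj a3 a1) hr31
        · exact absurd (inj a3 a2) hr32
    · rcases hR r2 (Or.inr (Or.inl rfl)) with a2 | a2 | a2
      · rcases hR r3 (Or.inr (Or.inr rfl)) with a3 | a3 | a3
        · exact absurd (inj a3 a2) hr32
        · exfalso
          have := eq_cyc (Ne.symm hr31) (Ne.symm hr21) hr32 g a1 a3 a2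
            (fun d h1 h2 h3 => hout d h1 h3 h2)
          exact hT r1 r3 r2 ⟨Ne.symm hr31, Ne.symm hr21, hr32, this ▸ hgH⟩
        · exact absurd (inj a3 a1) hr31
      · exfalso
        apply hs13
        rcases hR r3 (Or.inr (Or.inr rfl)) with a3 | a3 | a3
        · rw [hswap r1 r3 (Ne.symm hr31) ?_ a1 a3]
          · exact hgH
          · intro d h1 h2
            by_cases e1 : d = r2
            · rw [e1, a2]
            · exact hout d h1 e1 h2
        · exact absurd (inj a3 a2) hr32
        · exact absurd (inj a3 a1) hr31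
      · exact absurd (inj a2 a1) hr21
  have hKinj : ∀ g ∈ K, ∀ h ∈ K, g c = h c → g = h := by
    intro g hg h hh e
    have := hKfix (h⁻¹ * g) (K.mul_mem (K.inv_mem hh) hg) (by
      rw [Perm.mul_apply, e, Perm.inv_eq_iff_eq])
    exact (inv_mul_eq_one.1 this).symm
  have cardK : Nat.card K ≤ Fintype.card α := by
    rw [← Nat.card_eq_fintype_card]
    apply Nat.card_le_card_of_injective (fun g : K => (g : Perm α) c)
    intro g h e
    exact Subtype.ext (hKinj g g.2 h h.2 e)
  have cardK2 : 12 ≤ Fintype.card α → Nat.card K ≤ 2 := by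
    intro h12
    have huniq : ∀ g ∈ K, ∀ h ∈ K, g ≠ 1 → h ≠ 1 → g = h := by
      intro g hg h hh hg1 hh1
      by_contra hne
      set a := g c with ha
      set b := h c with hb
      have hac : a ≠ c := fun e => hg1 (hKfix g hg e)
      have hbc : b ≠ c := fun e => hh1 (hKfix h hh e)
      have hab : a ≠ b := fun e => hne (hKinj g hg h hh e)
      obtain ⟨j, hjL, hj⟩ : ∃ j ∈ L, j ∉ ({a, b, g⁻¹ b} : Finset α) := by
        apply Finset.exists_mem_notMem_of_card_lt_card
        have := Finset.card_le_three (a := a) (b := b) (c := g⁻¹ b)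
        omega
      simp only [Finset.mem_insert, Finset.mem_singleton, not_or] at hj
      obtain ⟨hja, hjb, hjb'⟩ := hj
      obtain ⟨k, hkL, hk⟩ : ∃ k ∈ L,
          k ∉ ({j, a, g j, b} ∪ {h⁻¹ j, h⁻¹ a, h⁻¹ (g j)} : Finset α) := by
        apply Finset.exists_mem_notMem_of_card_lt_card
        have h1 := Finset.card_le_four (a := j) (b := a) (c := g j) (d := b)
        have h2 := Finset.card_le_three (a := h⁻¹ j) (b := h⁻¹ a) (c := h⁻¹ (g j))
        have h3 := Finset.card_union_le ({j, a, g j, b} : Finset α)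
          {h⁻¹ j, h⁻¹ a, h⁻¹ (g j)}
        omega
      simp only [Finset.mem_union, Finset.mem_insert, Finset.mem_singleton, not_or] at hk
      obtain ⟨⟨hkj, hka, hkgj, hkb⟩, hkhj, hkha, hkhgj⟩ := hk
      have hjc : j ≠ c := ((memL j).1 hjL).1
      have hkc : k ≠ c := ((memL k).1 hkL).1
      have hπ1 := hKs g hg j hjL
      have hπ2 := hKs h hh k hkL
      rw [← ha] at hπ1
      rw [← hb] at hπ2
      have hj1a : g j ≠ a := fun e => hjc (g.injective e)
      have hk1b : h k ≠ b := fun e => hkc (h.injective e)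
      have hj1b : g j ≠ b := fun e => hjb' (Perm.eq_inv_iff_eq.2 e)
      have hk1j : h k ≠ j := fun e => hkhj (Perm.eq_inv_iff_eq.2 e)
      have hk1a : h k ≠ a := fun e => hkha (Perm.eq_inv_iff_eq.2 e)
      have hk1gj : h k ≠ g j := fun e => hkhgj (Perm.eq_inv_iff_eq.2 e)
      have hj1c : g j ≠ c := by
        intro e
        rw [e, swap_comm c j, swap_comm a c] at hπ1
        exact hT j c a (T_of_share hjc hja (Ne.symm hac) hπ1)
      have hj1j : g j ≠ j := by
        intro e
        rw [e, swap_comm a j] at hπ1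
        exact hT c j a (T_of_share (Ne.symm hjc) (Ne.symm hac) hja hπ1)
      have hk1c : h k ≠ c := by
        intro e
        rw [e, swap_comm c k, swap_comm b c] at hπ2
        exact hT k c b (T_of_share hkc hkb (Ne.symm hbc) hπ2)
      have hk1k : h k ≠ k := by
        intro e
        rw [e, swap_comm b k] at hπ2
        exact hT c k b (T_of_share (Ne.symm hkc) (Ne.symm hbc) hkb hπ2)
      generalize g j = j1 at *
      generalize h k = k1 at *
      have p1 : (swap c j * swap a j1) c = j := by
        rw [Perm.mul_apply, swap_apply_of_ne_of_ne (Ne.symm hac) (Ne.symm hj1c), swap_apply_left]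
      have p2 : ∀ x, x ≠ c → x ≠ j → x ≠ a → x ≠ j1 → (swap c j * swap a j1) x = x := by
        intro x x1 x2 x3 x4
        rw [Perm.mul_apply, swap_apply_of_ne_of_ne x3 x4, swap_apply_of_ne_of_ne x1 x2]
      have hconj : swap j k * swap b k1 ∈ H := by
        have e : swap j k * swap b k1 =
            (swap c j * swap a j1) * (swap c k * swap b k1) * (swap c j * swap a j1)⁻¹ := by
          have e1 : swap j k = (swap c j * swap a j1) * swap c k * (swap c j * swap a j1)⁻¹ := by
            rw [← swap_apply_apply, p1, p2 k hkc hkj hka hkgj]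
          have e2 : swap b k1 =
              (swap c j * swap a j1) * swap b k1 * (swap c j * swap a j1)⁻¹ := by
            rw [← swap_apply_apply, p2 b hbc (Ne.symm hjb) (Ne.symm hab) (Ne.symm hj1b),
              p2 k1 hk1c hk1j hk1a hk1gj]
          rw [e1]
          nth_rw 1 [e2]
          group
        rw [e]
        exact H.mul_mem (H.mul_mem hπ1 hπ2) (H.inv_mem hπ1)
      have hfin : swap j k * swap k c ∈ H := by
        have e3 : swap k c = swap b k1 * swap c k * (swap b k1)⁻¹ := by
          rw [← swap_apply_apply, swap_apply_of_ne_of_ne (Ne.symm hbc) (Ne.symm hk1c),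
            swap_apply_of_ne_of_ne hkb (Ne.symm hk1k), swap_comm]
        have e4 : swap j k * swap k c = (swap j k * swap b k1) * (swap c k * swap b k1) := by
          rw [e3, swap_inv]; group
        rw [e4]
        exact H.mul_mem hconj hπ2
      exact hT j k c (T_of_share (Ne.symm hkj) hjc hkc hfin)
    by_contra hcon
    push Not at hcon
    have : Fintype K := Fintype.ofFinite K
    rw [Nat.card_eq_fintype_card] at hcon
    obtain ⟨x, y, z, hxy, hxz, hyz⟩ := Fintype.two_lt_card_iff.1 hcon
    have hu : ∀ x y : K, x ≠ 1 → y ≠ 1 → x = y := by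
      intro x y hx hy
      apply Subtype.ext
      apply huniq x x.2 y y.2
      · intro e; exact hx (Subtype.ext e)
      · intro e; exact hy (Subtype.ext e)
    by_cases hx : x = 1
    · exact hyz (hu y z (fun e => hxy (hx.trans e.symm)) (fun e => hxz (hx.trans e.symm)))
    · by_cases hy : y = 1
      · exact hxz (hu x z hx (fun e => hyz (hy.trans e.symm)))
      · exact hxy (hu x y hx hy)
  obtain ⟨B1, hB1, hB1'⟩ := chain (X := X) K
  have cardB1 : B1.card ≤ 3 := by
    by_contra hcon
    push Not at hcon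
    have h1 : 2 ^ 4 ≤ 2 ^ B1.card := Nat.pow_le_pow_right (by norm_num) hcon
    by_cases h12 : 12 ≤ Fintype.card α
    · have := cardK2 h12
      omega
    · omega
  refine ⟨B0 ∪ B1, ?_, ?_⟩
  · have := Finset.card_union_le B0 B1
    omega
  · intro g hg
    apply hB1' g
    · rw [memK]
      exact fun x hx => hg x (Finset.mem_union_left _ hx)
    · exact fun x hx => hg x (Finset.mem_union_right _ hx)

end

/-- Every faithful action of the symmetric group of degree `n` has a base with at most `n`
points; in particular no element of the base size set exceeds `n`. -/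
theorem result (n : ℕ) (X : Type*) [MulAction (Perm (Fin n)) X] [FaithfulSMul (Perm (Fin n)) X] :
    (∃ B : Finset X, B.card ≤ n ∧ IsBase (Perm (Fin n)) X B) ∧ baseSize (Perm (Fin n)) X ≤ n := by
  suffices h : ∃ B : Finset X, B.card ≤ n ∧ IsBase (Perm (Fin n)) X B by
    refine ⟨h, ?_⟩
    obtain ⟨B, hB, hB'⟩ := h
    have h' : B.card ∈ {k | ∃ B : Finset X, B.card = k ∧ IsBase (Perm (Fin n)) X B} :=
      ⟨B, rfl, hB'⟩
    exact (Nat.sInf_le h').trans hB
  by_cases h5 : 5 ≤ n
  · obtain ⟨ω, hω⟩ : ∃ ω : X, ¬ alternatingGroup (Fin n) ≤ MulAction.stabilizer _ ω := by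
      by_contra hcon
      push Not at hcon
      have : Nontrivial (Fin n) := Fin.nontrivial_iff_two_le.2 (by omega)
      have h1 : (cyc (⟨0, by omega⟩ : Fin n) ⟨1, by omega⟩ ⟨2, by omega⟩) ∈
          alternatingGroup (Fin n) := by
        apply mul_mem_alternatingGroup_of_isSwap
        · exact swap_isSwap_iff.2 (by simp)
        · exact swap_isSwap_iff.2 (by simp)
      have h2 : cyc (⟨0, by omega⟩ : Fin n) ⟨1, by omega⟩ ⟨2, by omega⟩ = 1 :=
        FaithfulSMul.eq_of_smul_eq_smul (α := X) fun x => by
          rw [one_smul]; exact hcon x h1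
      have h3 := congrArg (fun g : Perm (Fin n) => g ⟨0, by omega⟩) h2
      simp only [Perm.one_apply] at h3
      rw [cyc_a (by simp) (by simp)] at h3
      simp at h3
    by_cases hT : ∃ a b c, T (MulAction.stabilizer (Perm (Fin n)) ω) a b c
    · obtain ⟨a, b, c, hT⟩ := hT
      obtain ⟨B, h1, h2⟩ := case_two ω hω a b c hT
      exact ⟨B, by simpa using h1, h2⟩
    · push Not at hT
      obtain ⟨B, h1, h2⟩ := case_one (by simpa using h5) ω hT
      exact ⟨B, by simpa using h1, h2⟩
  · obtain ⟨B, h1, h2⟩ := chain (X := X) (⊤ : Subgroup (Perm (Fin n)))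
    refine ⟨B, ?_, fun g hg => h2 g trivial hg⟩
    rw [Subgroup.card_top, Nat.card_perm, Nat.card_eq_fintype_card, Fintype.card_fin] at h1
    by_contra hcon
    push Not at hcon
    have h3 : 2 ^ (n + 1) ≤ 2 ^ B.card := Nat.pow_le_pow_right (by norm_num) hcon
    have h4 : n < 5 := by omega
    interval_cases n <;> simp [Nat.factorial] at h1 h3 <;> omega

end Pool.Agent.Results.MP_3e5dca_al.BaseLeDegree
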